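import Pool.Agent.helper4.QS.Spec

/-! PDS of project qs (MP_07c750_an): a block step preserves positive definiteness. -/

open scoped BigOperators ComplexOrder ComplexConjugate Topology

namespace Pool.Agent.QS

open Pool.Agent.helper86.CM Filter

theorem PDS_big {Γ P : Type} [AddCommGroup Γ] [AddCommGroup P] (h : Γ → Γ → ℝ)
    (ι : P →+ Γ) (S : Finset P) (E : Γ → ℂ) (hE : PD h E) (m : ℕ) (z : Fin m → Γ) :
    (Matrix.of fun p q : Fin m × S => ee (-(h (z p.1 + ι p.2) (z q.1 + ι q.2))) *
      E (z q.1 + ι q.2 - (z p.1 + ι p.2))).PosSemidef := by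
  classical
  have h1 := hE _ (fun i => z ((Fintype.equivFin (Fin m × S)).symm i).1 +
    ι ((Fintype.equivFin (Fin m × S)).symm i).2)
  have h2 := h1.submatrix (Fintype.equivFin (Fin m × S))
  have h3 : (Matrix.of fun p q : Fin m × S => ee (-(h (z p.1 + ι p.2) (z q.1 + ι q.2))) *
      E (z q.1 + ι q.2 - (z p.1 + ι p.2))) = (Matrix.of fun i j : Fin (Fintype.card (Fin m × S)) =>
      ee (-(h (z ((Fintype.equivFin (Fin m × S)).symm i).1 +
        ι ((Fintype.equivFin (Fin m × S)).symm i).2)
        (z ((Fintype.equivFin (Fin m × S)).symm j).1 +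
        ι ((Fintype.equivFin (Fin m × S)).symm j).2))) *
      E (z ((Fintype.equivFin (Fin m × S)).symm j).1 +
        ι ((Fintype.equivFin (Fin m × S)).symm j).2 -
        (z ((Fintype.equivFin (Fin m × S)).symm i).1 +
        ι ((Fintype.equivFin (Fin m × S)).symm i).2))).submatrix
        (Fintype.equivFin (Fin m × S)) (Fintype.equivFin (Fin m × S)) := by
    ext p q
    simp only [Matrix.submatrix_apply, Matrix.of_apply, Equiv.symm_apply_apply]
  rw [h3]
  exact h2

theorem PDS_main : PDS_stmt := by
  intro Γ P _ _ h hb ι S G E hE hG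
  obtain ⟨r, d, hd⟩ := hG
  classical
  intro m z
  have hK := PDS_big h ι S E hE m z
  have key : (Matrix.of fun i j : Fin m => ee (-(h (z i) (z j))) *
      stepE h ι S G E (z j - z i)) = ∑ a : Fin r,
      (Matrix.of fun (p : Fin m × S) (j : Fin m) => if p.1 = j then
        d a (p.2 : P) * ee (-(h (ι p.2) (z p.1))) else 0).conjTranspose *
      (Matrix.of fun p q : Fin m × S => ee (-(h (z p.1 + ι p.2) (z q.1 + ι q.2))) *
        E (z q.1 + ι q.2 - (z p.1 + ι p.2))) *
      (Matrix.of fun (p : Fin m × S) (j : Fin m) => if p.1 = j then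
        d a (p.2 : P) * ee (-(h (ι p.2) (z p.1))) else 0) := by
    ext i j
    rw [Matrix.sum_apply]
    simp only [Matrix.mul_apply, Matrix.of_apply, Matrix.conjTranspose_apply]
    unfold stepE
    have h4 : ∀ a : Fin r, (∑ q : Fin m × S, (∑ p : Fin m × S,
        star (if p.1 = i then d a (p.2 : P) * ee (-(h (ι p.2) (z p.1))) else 0) *
        (ee (-(h (z p.1 + ι p.2) (z q.1 + ι q.2))) * E (z q.1 + ι q.2 - (z p.1 + ι p.2)))) *
        (if q.1 = j then d a (q.2 : P) * ee (-(h (ι q.2) (z q.1))) else 0)) =
        ∑ y ∈ S, ∑ x ∈ S, (star (d a x * ee (-(h (ι x) (z i)))) *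
        (ee (-(h (z i + ι x) (z j + ι y))) * E (z j + ι y - (z i + ι x)))) *
        (d a y * ee (-(h (ι y) (z j)))) := by
      intro a
      rw [Fintype.sum_prod_type]
      rw [Finset.sum_eq_single j]
      · rw [← Finset.sum_coe_sort S]
        refine Finset.sum_congr rfl fun y _ => ?_
        rw [if_pos rfl, Fintype.sum_prod_type, Finset.sum_eq_single i, ← Finset.sum_coe_sort S,
          Finset.sum_mul]
        · refine Finset.sum_congr rfl fun x _ => ?_
          rw [if_pos rfl]
        · intro b _ hbi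
          refine Finset.sum_eq_zero fun x _ => ?_
          rw [if_neg hbi, star_zero, zero_mul]
        · intro hi
          exact absurd (Finset.mem_univ i) hi
      · intro b _ hbj
        refine Finset.sum_eq_zero fun x _ => ?_
        rw [if_neg hbj, mul_zero]
      · intro hj
        exact absurd (Finset.mem_univ j) hj
    rw [Finset.sum_congr rfl fun a _ => h4 a]
    rw [Finset.sum_comm, Finset.mul_sum]
    conv_rhs => rw [Finset.sum_comm]
    refine Finset.sum_congr rfl fun y hy => ?_
    conv_rhs => rw [Finset.sum_comm]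
    rw [Finset.mul_sum]
    refine Finset.sum_congr rfl fun x hx => ?_
    rw [hd x hx y hy, Finset.sum_mul, Finset.sum_mul, Finset.mul_sum]
    refine Finset.sum_congr rfl fun a _ => ?_
    have e1 : z j - z i + ι y - ι x = z j + ι y - (z i + ι x) := by abel
    rw [e1, ← starRingEnd_apply, map_mul, conj_ee, neg_neg]
    have e2 : ee (-(h (z i) (z j))) * ee (-(h (ι x) (z j - z i)) - h (ι y) (z j - z i) -
        h (ι x) (ι y)) = ee (h (ι x) (z i)) * ee (-(h (z i + ι x) (z j + ι y))) *
        ee (-(h (ι y) (z j))) := by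
      rw [← ee_add, ← ee_add, ← ee_add]
      congr 1
      rw [sub_eq_add_neg (z j) (z i)]
      simp only [hb.addl, hb.addr, hb.negr]
      rw [hb.skew (z i) (ι y)]
      ring
    linear_combination (starRingEnd ℂ (d a x) * d a y * E (z j + ι y - (z i + ι x))) * e2
  rw [key]
  refine Matrix.posSemidef_sum _ fun a _ => ?_
  exact hK.conjTranspose_mul_mul_same _

end Pool.Agent.QS
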